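import Pool.Agent.TH545.SD.Dh
import Pool.Agent.TH442.NF.Fin

/-! Closure under quadratic transformations, zero multiplicities, monotonicity. -/

set_option autoImplicit false

namespace Pool.Agent.TH545.SD

open Finset Pool.Agent.TH176.Nag Pool.Agent.TH603.Sur Pool.Agent.TH641.UM Pool.Agent.TH2.NU
open Pool.Agent.H932R3 (ExpDim)
open Pool.Agent.TH167.SH (PS cd exists_crel chi two_chi ip_cr kk_cr)
open Pool.Agent.W609.CR (wcr)

theorem exists_gen (n : ℕ) : ∃ (K : Type) (_ : Field K) (_ : CharZero K)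
    (P : Fin n → Fin 2 → K), AlgebraicIndependent ℚ (fun ij : Fin n × Fin 2 => P ij.1 ij.2) := by
  refine ⟨FractionRing (MvPolynomial (Fin n × Fin 2) ℚ), inferInstance, ?_,
    fun i j => algebraMap (MvPolynomial (Fin n × Fin 2) ℚ) _ (MvPolynomial.X (i, j)), ?_⟩
  · exact charZero_of_injective_algebraMap
      (IsFractionRing.injective (MvPolynomial (Fin n × Fin 2) ℚ)
        (FractionRing (MvPolynomial (Fin n × Fin 2) ℚ)))
  · have h := (MvPolynomial.algebraicIndependent_X (Fin n × Fin 2) ℚ).map'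
      (f := IsScalarTower.toAlgHom ℚ (MvPolynomial (Fin n × Fin 2) ℚ)
        (FractionRing (MvPolynomial (Fin n × Fin 2) ℚ)))
      (IsFractionRing.injective (MvPolynomial (Fin n × Fin 2) ℚ)
        (FractionRing (MvPolynomial (Fin n × Fin 2) ℚ)))
    exact h

theorem GD.reflect {n : ℕ} {d : ℕ} {w : Fin n → ℕ} {i : Fin 3 → Fin n}
    (hi : Function.Injective i) (p : PS i d w) (h : GD d (ms w)) :
    GD (cd i d w) (ms (wcr d i w)) := by
  obtain ⟨F, hF, hF'⟩ := h.expDim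
  obtain ⟨K, _, _, P, hP⟩ := exists_gen n
  have h1 : ExpDim K w P d := hF' P (fun h0 => hF (hP.eq_zero_of_aeval_eq_zero F h0))
  obtain ⟨P2, hP2, hr⟩ := exists_crel hP hi
  rw [Pool.Agent.TH442.NF.expDim_iff] at h1
  have hchi : chi (cd i d w) (wcr d i w) = chi d w := by
    have h1 := ip_cr hi p p
    have h2 := kk_cr hi p
    have h3 := two_chi (cd i d w) (wcr d i w)
    rw [h1, h2, ← two_chi] at h3
    exact mul_left_cancel₀ two_ne_zero h3
  have h2 : ExpDim K (wcr d i w) P2 (cd i d w) := by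
    rw [Pool.Agent.TH442.NF.expDim_iff, hr.dim p, h1, hchi]
  have hP0 : ∀ a j, P2 a j ≠ 0 := by
    intro a j h0
    exact hP2.ne_zero (a, j) h0
  apply GD_of
  exact emp_sur_at hP0 h2

theorem ms_cons {n : ℕ} (a : ℕ) (u : Fin n → ℕ) : ms (Fin.cons a u : Fin (n + 1) → ℕ) = a ::ₘ ms u := by
  unfold ms
  rw [Fin.sum_univ_succ]
  simp only [Fin.cons_zero, Fin.cons_succ]
  rw [Multiset.singleton_add]

theorem GD.cremona {d a b c : ℕ} {e : Multiset ℕ} (h1 : b + c ≤ d) (h2 : a + c ≤ d)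
    (h3 : a + b ≤ d) (h : GD d (a ::ₘ b ::ₘ c ::ₘ e)) :
    GD (2 * d - (a + b + c)) ((d - (b + c)) ::ₘ (d - (a + c)) ::ₘ (d - (a + b)) ::ₘ e) := by
  obtain ⟨s, u, rfl⟩ := exists_fam e
  obtain ⟨w, hw⟩ : ∃ w : Fin (s + 1 + 1 + 1) → ℕ, w = Fin.cons a (Fin.cons b (Fin.cons c u)) :=
    ⟨_, rfl⟩
  obtain ⟨i, hi⟩ : ∃ i : Fin 3 → Fin (s + 1 + 1 + 1),
    i = ![0, Fin.succ 0, Fin.succ (Fin.succ 0)] := ⟨_, rfl⟩
  have e0 : i 0 = 0 := by rw [hi]; rfl
  have e1 : i 1 = Fin.succ 0 := by rw [hi]; rfl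
  have e2 : i 2 = Fin.succ (Fin.succ 0) := by rw [hi]; rfl
  have w0 : w (i 0) = a := by rw [e0, hw]; rfl
  have w1 : w (i 1) = b := by rw [e1, hw]; rfl
  have w2 : w (i 2) = c := by rw [e2, hw]; rfl
  have hinj : Function.Injective i := by
    have hv : ∀ x : Fin 3, (i x).val = x.val := by
      intro x
      fin_cases x
      · show (i 0).val = 0
        rw [e0]; rfl
      · show (i 1).val = 1
        rw [e1]; rfl
      · show (i 2).val = 2
        rw [e2]; rfl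
    intro x y hxy
    apply Fin.ext
    rw [← hv x, ← hv y, hxy]
  have p : PS i d w := ⟨by rw [w0, w1]; exact h3, by rw [w0, w2]; exact h2, by rw [w1, w2]; exact h1⟩
  have hms : ms w = a ::ₘ b ::ₘ c ::ₘ ms u := by rw [hw, ms_cons, ms_cons, ms_cons]
  have hcr : wcr d i w =
      Fin.cons (d - (b + c)) (Fin.cons (d - (a + c)) (Fin.cons (d - (a + b)) u)) := by
    funext j
    unfold wcr
    rw [w0, w1, w2, e0, e1, e2]
    refine Fin.cases ?_ (fun j => ?_) j
    · rw [if_pos rfl, Fin.cons_zero]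
    rw [if_neg (Fin.succ_ne_zero j), Fin.cons_succ]
    refine Fin.cases ?_ (fun j => ?_) j
    · rw [if_pos rfl, Fin.cons_zero]
    rw [if_neg (fun h0 => Fin.succ_ne_zero j (Fin.succ_injective _ h0)), Fin.cons_succ]
    refine Fin.cases ?_ (fun j => ?_) j
    · rw [if_pos rfl, Fin.cons_zero]
    rw [if_neg (fun h0 => Fin.succ_ne_zero j (Fin.succ_injective _ (Fin.succ_injective _ h0))),
      Fin.cons_succ, hw]
    rfl
  have hcd : cd i d w = 2 * d - (a + b + c) := by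
    unfold cd
    rw [w0, w1, w2]
  have key : GD (cd i d w) (ms (wcr d i w)) := by
    apply GD.reflect hinj p
    rw [hms]
    exact @h
  rw [hcr, hcd, ms_cons, ms_cons, ms_cons] at key
  exact @key

theorem Emp_zero {κ : Type} {u : κ → ℕ} {S : Set (ℤ × ℤ)} :
    Emp (Sum.elim (fun _ : Fin 1 => 0) u) S ↔ Emp u S := by
  constructor
  · rintro ⟨K, _, _, x, y, hx, hy, hf⟩
    refine ⟨K, inferInstance, inferInstance, fun i => x (Sum.inr i), fun i => y (Sum.inr i),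
      fun i => hx _, fun i => hy _, fun f hfS hfL => hf f hfS ?_⟩
    rintro (i | j)
    · exact LM_of_desc (fun a b hab => absurd hab (by simp))
    · exact hfL j
  · intro h
    exact Emp_emb (w := u) Sum.inr Sum.inr_injective (fun i => le_rfl) h

theorem ms_zero {κ : Type} [Fintype κ] (u : κ → ℕ) :
    ms (Sum.elim (fun _ : Fin 1 => 0) u) = 0 ::ₘ ms u := by
  rw [ms_sum, ms_fin, one_smul, Multiset.singleton_add]

theorem cond_zero {κ : Type} [Fintype κ] (u : κ → ℕ) :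
    cond (Sum.elim (fun _ : Fin 1 => 0) u) = cond u := by
  unfold Pool.Agent.TH603.Sur.cond
  rw [Fintype.sum_sum_type]
  simp

theorem GD.zero {d : ℕ} {v : Multiset ℕ} (h : GD d v) : GD d (0 ::ₘ v) := by
  obtain ⟨s, u, rfl⟩ := exists_fam v
  rw [← ms_zero]
  apply GD_of
  rw [cond_zero]
  obtain ⟨h1, h2⟩ := h u rfl
  refine ⟨fun hle => Emp_zero.2 (h1 hle), fun hle => ?_⟩
  obtain ⟨T, hT, hTc, hTE⟩ := h2 hle
  exact ⟨T, hT, by rw [hTc, cond_zero], Emp_zero.2 hTE⟩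

theorem GD.erase {d : ℕ} {v : Multiset ℕ} (h : GD d (0 ::ₘ v)) : GD d v := by
  obtain ⟨s, u, rfl⟩ := exists_fam v
  apply GD_of
  obtain ⟨h1, h2⟩ := h (Sum.elim (fun _ : Fin 1 => 0) u) (ms_zero u)
  rw [cond_zero] at h1 h2
  refine ⟨fun hle => Emp_zero.1 (h1 hle), fun hle => ?_⟩
  obtain ⟨T, hT, hTc, hTE⟩ := h2 hle
  exact ⟨T, hT, by rw [hTc, cond_zero], Emp_zero.1 hTE⟩

end Pool.Agent.TH545.SD
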