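import Pool.Agent.TH545.SD.Gd
import Pool.Agent.TH885.NW.Final
import Pool.Agent.TH105.NU.All
import Pool.Agent.TH641.EN.Fin
import Pool.Agent.TH864.SX.Final13
import Pool.Agent.TH469.SX.TwentyOne

/-! Systems with the expected dimension in one degree: closure under subdivision, bases. -/

set_option autoImplicit false

namespace Pool.Agent.TH545.SD

open Finset Pool.Agent.TH176.Nag Pool.Agent.TH603.Sur Pool.Agent.TH641.UM Pool.Agent.TH2.NU
open Pool.Agent.H932R3 (ExpDim)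

/-- the expected dimension in degree `d` at general points with the multiplicities `v` -/
def GD (d : ℕ) (v : Multiset ℕ) : Prop :=
  ∀ {ι : Type} [Fintype ι] (w : ι → ℕ), ms w = v →
    ((d + 2).choose 2 ≤ cond w → Emp w (TZ d)) ∧ (cond w ≤ (d + 2).choose 2 → Sur w (TZ d))

theorem GD_of {κ : Type} [Fintype κ] {u : κ → ℕ} {d : ℕ}
    (h : ((d + 2).choose 2 ≤ cond u → Emp u (TZ d)) ∧
      (cond u ≤ (d + 2).choose 2 → Sur u (TZ d))) : GD d (ms u) := by
  intro ι _ w hw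
  rw [cond_of_ms hw]
  exact ⟨fun hd => Emp_of_ms hw.ge (h.1 hd), fun hd => Sur_of_ms hw.symm (h.2 hd)⟩

theorem GD.four {d N b : ℕ} {e : Multiset ℕ} (hN : 1 ≤ N) (hb : 1 ≤ b) (h1 : GD d (N • {b} + e))
    (h2 : GD d (N • {b + 1} + e)) : GD d (N • halves b + e) := by
  obtain ⟨s, u, hu⟩ := exists_fam e
  have hms : ms (Sum.elim (fun p : Fin N × (Fin 2 × Fin 2) => qv b p.2) u) = N • halves b + e := by
    rw [ms_sum, hu, ms_prod]
    congr 2
  rw [← hms]
  apply GD_of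
  have g1 := h1 (Sum.elim (fun _ : Fin N => b) u) (by rw [ms_sum, ms_fin, hu])
  have g2 := h2 (Sum.elim (fun _ : Fin N => b + 1) u) (by rw [ms_sum, ms_fin, hu])
  have key := subdivide (N := N) (b := b) (e := u) (S := TF d) (by omega) hb
    (fun v hv => by
      have : v ∈ TZ d := by rw [← coe_TF]; exact mem_coe.2 hv
      exact ⟨this.1, this.2.1⟩)
  rw [coe_TF, card_TF] at key
  exact key g1.1 g1.2 g2.1 g2.2

theorem GD.one {d b : ℕ} {e : Multiset ℕ} (hb : 1 ≤ b) (h : GD d (b ::ₘ e)) :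
    GD d (quarters b + e) := by
  obtain ⟨s, u, hu⟩ := exists_fam e
  have hms : ms (Sum.elim (fun p : Fin 1 × (Fin 2 × Fin 2) => rv b p.2) u) = quarters b + e := by
    have r0 : rv b (0, 0) = (2 * b - 1) / 4 := by
      simp only [rv, Fin.val_zero]
      congr 1
    have r1 : rv b (0, 1) = 2 * b / 4 := by
      simp only [rv, Fin.val_zero, Fin.val_one]
      congr 1
      omega
    have r2 : rv b (1, 0) = (2 * b + 1) / 4 := by
      simp only [rv, Fin.val_zero, Fin.val_one]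
      congr 1
      omega
    have r3 : rv b (1, 1) = (2 * b + 2) / 4 := by
      simp only [rv, Fin.val_one]
      congr 1
      omega
    rw [ms_sum, hu, ms_prod, one_smul, r0, r1, r2, r3]
    rfl
  have hms' : ms (Sum.elim (fun _ : Fin 1 => b) u) = b ::ₘ e := by
    rw [ms_sum, ms_fin, hu, one_smul, Multiset.singleton_add]
  rw [← hms]
  apply GD_of
  have g := h (Sum.elim (fun _ : Fin 1 => b) u) hms'
  have hc : cond (Sum.elim (fun p : Fin 1 × (Fin 2 × Fin 2) => rv b p.2) u) =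
      cond (Sum.elim (fun _ : Fin 1 => b) u) := by
    rw [cond_sum, cond_sum', sum_rv hb]
  rw [hc]
  refine ⟨fun hd => ?_, fun hd => exactB_Sur hb (g.2 hd)⟩
  have h1 := g.1 hd
  rw [← coe_TF] at h1 ⊢
  exact exactB hb h1

/-- the number of conditions -/
def co (v : Multiset ℕ) : ℕ := (v.map fun a => (a + 1).choose 2).sum

theorem TZ_mono {d d' : ℕ} (h : d ≤ d') : TZ d ⊆ TZ d' := by
  rintro m ⟨h1, h2, h3⟩
  exact ⟨h1, h2, h3.trans (by exact_mod_cast h)⟩

theorem GD.above {d d' : ℕ} {v : Multiset ℕ} (hd : d' ≤ d) (hc : co v ≤ (d' + 2).choose 2)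
    (h : GD d' v) : GD d v := by
  intro ι _ w hw
  have e : cond w = co v := by rw [cond_ms, hw, co]
  have hS := (h w hw).2 (by rw [e]; exact hc)
  have hS' : Sur w (TZ d) := hS.mono (TZ_mono hd)
  refine ⟨fun hle => ?_, fun _ => hS'⟩
  obtain ⟨T, hT, hTc, hTE⟩ := hS'
  have hTS : T ⊆ TF d := fun u hu => by
    rw [← mem_coe, coe_TF]
    exact hT (mem_coe.2 hu)
  have : T = TF d := eq_of_subset_of_card_le hTS (by rw [card_TF]; omega)
  rw [this, coe_TF] at hTE
  exact hTE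

theorem GD.below {d d' : ℕ} {v : Multiset ℕ} (hd : d ≤ d') (hc : (d' + 2).choose 2 ≤ co v)
    (h : GD d' v) : GD d v := by
  intro ι _ w hw
  have e : cond w = co v := by rw [cond_ms, hw, co]
  have hE := (h w hw).1 (by rw [e]; exact hc)
  have hE' : Emp w (TZ d) := hE.mono (TZ_mono hd)
  refine ⟨fun _ => hE', fun hle => ?_⟩
  refine ⟨TF d, (coe_TF d).subset, ?_, by rw [coe_TF]; exact hE'⟩
  have h1 : (d + 2).choose 2 ≤ (d' + 2).choose 2 := Nat.choose_le_choose 2 (by omega)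
  rw [card_TF]
  omega

/-- from general points -/
theorem GD_of_expDim {n : ℕ} {w : Fin n → ℕ} {d : ℕ}
    (h : ∃ F : MvPolynomial (Fin n × Fin 2) ℚ, F ≠ 0 ∧ ∀ (P : Fin n → Fin 2 → ℚ),
      MvPolynomial.aeval (fun ij : Fin n × Fin 2 => P ij.1 ij.2) F ≠ 0 → ExpDim ℚ w P d) :
    GD d (ms w) := GD_of (emp_sur_of_expDim h)

/-- and back to general points -/
theorem GD.expDim {n : ℕ} {w : Fin n → ℕ} {d : ℕ} (h : GD d (ms w)) :
    ∃ F : MvPolynomial (Fin n × Fin 2) ℚ, F ≠ 0 ∧ ∀ {L : Type} [Field L] [CharZero L]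
      (P : Fin n → Fin 2 → L), MvPolynomial.aeval (fun ij : Fin n × Fin 2 => P ij.1 ij.2) F ≠ 0 →
      ExpDim L w P d := by
  obtain ⟨h1, h2⟩ := h w rfl
  rcases le_total ((d + 2).choose 2) (cond w) with hd | hd
  · obtain ⟨F, hF, hF'⟩ := full_open (h1 hd)
    exact ⟨F, hF, fun P hP => hF' P hP d le_rfl⟩
  · obtain ⟨F, hF, hF'⟩ := indep_open (h2 hd)
    exact ⟨F, hF, fun P hP => hF' P hP d le_rfl⟩

/-! ### The bases -/

theorem mem_ms {ι : Type} [Fintype ι] (w : ι → ℕ) (i : ι) : w i ∈ ms w := by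
  unfold ms
  rw [Multiset.mem_sum]
  exact ⟨i, mem_univ i, Multiset.mem_singleton_self _⟩

theorem GD.point (d b : ℕ) : GD d {b} := by
  have h1 : ∀ {d : ℕ}, b ≤ d + 1 → Sur (fun _ : Fin 1 => b) (TZ d) := by
    intro d hd
    apply Sur_rows (fun _ : Fin 1 => b) 0
    intro k j hj
    simp only [sum_const, card_univ, Fintype.card_fin, one_smul] at hj
    exact ⟨by simp, by simp, by simp only; omega⟩
  have h2 : cond (fun _ : Fin 1 => b) = (b + 1).choose 2 := by
    unfold Pool.Agent.TH603.Sur.cond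
    simp
  have h3 : ms (fun _ : Fin 1 => b) = {b} := by rw [ms_fin, one_smul]
  rw [← h3]
  have h4 : co (ms (fun _ : Fin 1 => b)) = (b + 1).choose 2 := by
    rw [co, ← cond_ms, h2]
  rcases Nat.eq_zero_or_pos b with hb | hb
  · subst hb
    apply GD_of
    rw [h2]
    refine ⟨fun hd => ?_, fun _ => h1 (by omega)⟩
    have : 0 < (d + 2).choose 2 := Nat.choose_pos (by omega)
    simp at hd
    omega
  · have h5 : GD (b - 1) (ms (fun _ : Fin 1 => b)) := by
      apply GD_of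
      have hS := h1 (d := b - 1) (by omega)
      refine ⟨fun hle => ?_, fun _ => hS⟩
      obtain ⟨T, hT, hTc, hTE⟩ := hS
      have hTS : T ⊆ TF (b - 1) := fun u hu => by
        rw [← mem_coe, coe_TF]
        exact hT (mem_coe.2 hu)
      have : T = TF (b - 1) := eq_of_subset_of_card_le hTS (by
        rw [card_TF, hTc, h2]
        have : b - 1 + 2 = b + 1 := by omega
        rw [this])
      rw [this, coe_TF] at hTE
      exact hTE
    have e : b - 1 + 2 = b + 1 := by omega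
    rcases le_total d (b - 1) with hd | hd
    · intro ι _ w hw
      exact GD.below hd (by rw [h4, e]) h5 w hw
    · intro ι _ w hw
      exact GD.above hd (by rw [h4, e]) h5 w hw

theorem GD.uniform {d n m : ℕ} (hm : 1 ≤ m) (hn : 37 ≤ n ∨ n = 13 ∨ n = 21) : GD d (n • {m}) := by
  rw [← ms_fin]
  apply GD_of_expDim
  rcases hn with hn | rfl | rfl
  · obtain ⟨F, hF, hF'⟩ := Pool.Agent.TH641.EN.exp37 hn hm (L := ℚ)
    exact ⟨F, hF, fun P hP => hF' P hP d⟩
  · obtain ⟨F, hF, hF'⟩ := Pool.Agent.TH864.SX.uniform13 m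
    exact ⟨F, hF, fun P hP => hF' P hP d⟩
  · obtain ⟨F, hF, hF'⟩ := Pool.Agent.TH469.SX.twentyone m
    exact ⟨F, hF, fun P hP => hF' P hP d⟩

theorem GD.near : ∃ T0 : ℕ, ∀ {d m : ℕ} {v : Multiset ℕ}, T0 ≤ v.card → 1 ≤ m →
    (∀ a ∈ v, a = m ∨ a = m + 1) → GD d v := by
  obtain ⟨T0, h⟩ := Pool.Agent.TH105.NU.expDim_near
  refine ⟨T0, fun {d m v} hT hm hv => ?_⟩
  obtain ⟨s, u, rfl⟩ := exists_fam v
  rw [ms_card, Fintype.card_fin] at hT
  obtain ⟨F, hF, hF'⟩ := h s hT m hm u (fun i => hv _ (mem_ms u i)) (L := ℚ)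
  exact GD_of_expDim ⟨F, hF, fun P hP => hF' P hP d⟩

theorem GD.low {d : ℕ} {v : Multiset ℕ} (hn : 10 ≤ v.card)
    (h : √(v.card : ℝ) * d < (v.sum : ℝ)) : GD d v := by
  obtain ⟨s, u, rfl⟩ := exists_fam v
  rw [ms_card, Fintype.card_fin] at hn h
  rw [ms_sum_val] at h
  obtain ⟨F, hF, hF'⟩ := Pool.Agent.TH387.SH.expDim_all hn u
  exact GD_of_expDim ⟨F, hF, fun P hP => hF' P hP d (Or.inl (by exact_mod_cast h))⟩

theorem sum_map_ms {ι : Type} [Fintype ι] (w : ι → ℕ) (g : ℕ → ℕ) :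
    ((ms w).map g).sum = ∑ i, g (w i) := by
  unfold ms
  have : ∀ s : Finset ι, ((∑ i ∈ s, ({w i} : Multiset ℕ)).map g).sum = ∑ i ∈ s, g (w i) := by
    classical
    intro s
    induction s using Finset.induction_on with
    | empty => simp
    | insert a s ha ih => rw [sum_insert ha, sum_insert ha, Multiset.map_add, Multiset.sum_add, ih]; simp
  exact this univ

theorem GD.high {d b : ℕ} {v : Multiset ℕ} (hn : 10 ≤ v.card) (hb : ∀ a ∈ v, a ≤ b + 1)
    (h : (v.card : ℝ) + (((v.map fun a => max a b).sum : ℕ) : ℝ) < √(v.card : ℝ) * (d + 3)) : GD d v := by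
  obtain ⟨s, u, rfl⟩ := exists_fam v
  rw [ms_card, Fintype.card_fin] at hn h
  rw [sum_map_ms] at h
  obtain ⟨F, hF, hF'⟩ := Pool.Agent.TH387.SH.expDim_all hn u
  exact GD_of_expDim ⟨F, hF, fun P hP => hF' P hP d (Or.inr ⟨b, fun i => hb _ (mem_ms u i), h⟩)⟩

end Pool.Agent.TH545.SD
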