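import Pool.Agent.TH545.SD.Conv
import Pool.Agent.TH2.NU.Dbl
import Pool.Agent.TH2.NU.Anti

/-! Systems with the expected dimension in all degrees: closure under subdivision. -/

set_option autoImplicit false

namespace Pool.Agent.TH545.SD

open Finset Pool.Agent.TH176.Nag Pool.Agent.TH603.Sur Pool.Agent.TH641.UM Pool.Agent.TH2.NU
open Pool.Agent.H932R3 (ExpDim)

theorem rv_le_qv (b : ℕ) (p : Fin 2 × Fin 2) : rv b p ≤ qv b p := by
  obtain ⟨a, c⟩ := p
  unfold rv qv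
  simp only
  have := a.2
  have := c.2
  omega

theorem qv_le_rv (b : ℕ) (p : Fin 2 × Fin 2) : qv b p ≤ rv (b + 1) p := by
  obtain ⟨a, c⟩ := p
  unfold rv qv
  simp only
  have := a.2
  have := c.2
  omega

/-- **Subdivision**: `N` points of multiplicity `b` are replaced by `4 N` points of multiplicities
`⌊b/2⌋`, `⌈b/2⌉`. -/
theorem subdivide {N b : ℕ} {κ : Type} [Fintype κ] {e : κ → ℕ} (hN : 0 < N) (hb : 1 ≤ b)
    {S : Finset (ℤ × ℤ)} (hpos : ∀ u ∈ S, 0 ≤ u.1 ∧ 0 ≤ u.2)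
    (h1E : S.card ≤ cond (Sum.elim (fun _ : Fin N => b) e) →
      Emp (Sum.elim (fun _ : Fin N => b) e) (↑S : Set (ℤ × ℤ)))
    (h1S : cond (Sum.elim (fun _ : Fin N => b) e) ≤ S.card →
      Sur (Sum.elim (fun _ : Fin N => b) e) (↑S : Set (ℤ × ℤ)))
    (h2E : S.card ≤ cond (Sum.elim (fun _ : Fin N => b + 1) e) →
      Emp (Sum.elim (fun _ : Fin N => b + 1) e) (↑S : Set (ℤ × ℤ)))
    (h2S : cond (Sum.elim (fun _ : Fin N => b + 1) e) ≤ S.card →
      Sur (Sum.elim (fun _ : Fin N => b + 1) e) (↑S : Set (ℤ × ℤ))) :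
    (S.card ≤ cond (Sum.elim (fun p : Fin N × (Fin 2 × Fin 2) => qv b p.2) e) →
      Emp (Sum.elim (fun p : Fin N × (Fin 2 × Fin 2) => qv b p.2) e) (↑S : Set (ℤ × ℤ))) ∧
    (cond (Sum.elim (fun p : Fin N × (Fin 2 × Fin 2) => qv b p.2) e) ≤ S.card →
      Sur (Sum.elim (fun p : Fin N × (Fin 2 × Fin 2) => qv b p.2) e) (↑S : Set (ℤ × ℤ))) := by
  have hc1 := cond_sum' (N := N) (b := b) (e := e)
  have hc2 := cond_sum (N := N) (e := e) (qv b)
  rw [sum_qv, mul_add] at hc2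
  have hpos' : 0 < N * ((b + 1) / 2) := Nat.mul_pos hN (by omega)
  rcases le_or_gt S.card (cond (Sum.elim (fun _ : Fin N => b) e)) with h | h
  · refine ⟨fun _ => ?_, fun h3 => absurd h3 (by omega)⟩
    refine Emp_emb id Function.injective_id ?_ (exactB hb (h1E h))
    rintro (p | i)
    · exact rv_le_qv b p.2
    · exact le_rfl
  · rcases le_or_gt (cond (Sum.elim (fun _ : Fin N => b + 1) e)) S.card with h' | h'
    · have hS : Sur (Sum.elim (fun p : Fin N × (Fin 2 × Fin 2) => qv b p.2) e) (↑S : Set (ℤ × ℤ)) := by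
        refine Sur_anti ?_ (exactB_Sur (b := b + 1) (by omega) (h2S h'))
        rintro (p | i)
        · exact qv_le_rv b p.2
        · exact le_rfl
      refine ⟨fun h3 => ?_, fun _ => hS⟩
      -- then the number of conditions is the number of exponents
      obtain ⟨T, hT, hTc, hTE⟩ := hS
      have hTS : T ⊆ S := fun u hu => mem_coe.1 (hT (mem_coe.2 hu))
      have : T = S := eq_of_subset_of_card_le hTS (by omega)
      rw [← this]
      exact hTE
    · exact doublingB hN hpos (h1S h.le) (h2E h'.le)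

/-- the expected dimension in all degrees at general points with the multiplicities `v` -/
def Gd (v : Multiset ℕ) : Prop :=
  ∀ {ι : Type} [Fintype ι] (w : ι → ℕ), ms w = v → ∀ d : ℕ,
    ((d + 2).choose 2 ≤ cond w → Emp w (TZ d)) ∧ (cond w ≤ (d + 2).choose 2 → Sur w (TZ d))

theorem Gd_of {κ : Type} [Fintype κ] {u : κ → ℕ}
    (h : ∀ d : ℕ, ((d + 2).choose 2 ≤ cond u → Emp u (TZ d)) ∧
      (cond u ≤ (d + 2).choose 2 → Sur u (TZ d))) : Gd (ms u) := by
  intro ι _ w hw d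
  rw [cond_of_ms hw]
  exact ⟨fun hd => Emp_of_ms hw.ge ((h d).1 hd), fun hd => Sur_of_ms hw.symm ((h d).2 hd)⟩

theorem exists_fam (e : Multiset ℕ) : ∃ (s : ℕ) (u : Fin s → ℕ), ms u = e := by
  induction e using Multiset.induction_on with
  | empty => exact ⟨0, fun _ => 0, by simp [ms]⟩
  | cons a e ih =>
    obtain ⟨s, u, hu⟩ := ih
    refine ⟨s + 1, Fin.cons a u, ?_⟩
    unfold ms at hu ⊢
    rw [Fin.sum_univ_succ]
    simp only [Fin.cons_zero, Fin.cons_succ]
    rw [hu, Multiset.singleton_add]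

/-- the four multiplicities `⌊b/2⌋`, `⌊b/2⌋`, `⌈b/2⌉`, `⌈b/2⌉` -/
def halves (b : ℕ) : Multiset ℕ := {b / 2, b / 2, (b + 1) / 2, (b + 1) / 2}

/-- the four multiplicities whose numbers of conditions have the sum `b (b + 1) / 2` -/
def quarters (b : ℕ) : Multiset ℕ := {(2 * b - 1) / 4, 2 * b / 4, (2 * b + 1) / 4, (2 * b + 2) / 4}

theorem ms_prod {N : ℕ} (g : Fin 2 × Fin 2 → ℕ) :
    ms (fun p : Fin N × (Fin 2 × Fin 2) => g p.2) =
      N • ({g (0, 0), g (0, 1), g (1, 0), g (1, 1)} : Multiset ℕ) := by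
  unfold ms
  rw [Fintype.sum_prod_type]
  simp only
  rw [Finset.sum_const, card_univ, Fintype.card_fin]
  congr 1

theorem Gd.four {N b : ℕ} {e : Multiset ℕ} (hN : 1 ≤ N) (hb : 1 ≤ b) (h1 : Gd (N • {b} + e))
    (h2 : Gd (N • {b + 1} + e)) : Gd (N • halves b + e) := by
  obtain ⟨s, u, hu⟩ := exists_fam e
  have hms : ms (Sum.elim (fun p : Fin N × (Fin 2 × Fin 2) => qv b p.2) u) = N • halves b + e := by
    rw [ms_sum, hu, ms_prod]
    congr 2
  rw [← hms]
  apply Gd_of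
  intro d
  have g1 := h1 (Sum.elim (fun _ : Fin N => b) u) (by rw [ms_sum, ms_fin, hu]) d
  have g2 := h2 (Sum.elim (fun _ : Fin N => b + 1) u) (by rw [ms_sum, ms_fin, hu]) d
  have key := subdivide (N := N) (b := b) (e := u) (S := TF d) (by omega) hb
    (fun v hv => by
      have : v ∈ TZ d := by rw [← coe_TF]; exact mem_coe.2 hv
      exact ⟨this.1, this.2.1⟩)
  rw [coe_TF, card_TF] at key
  exact key g1.1 g1.2 g2.1 g2.2

theorem Gd.one {b : ℕ} {e : Multiset ℕ} (hb : 1 ≤ b) (h : Gd (b ::ₘ e)) :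
    Gd (quarters b + e) := by
  obtain ⟨s, u, hu⟩ := exists_fam e
  have hms : ms (Sum.elim (fun p : Fin 1 × (Fin 2 × Fin 2) => rv b p.2) u) = quarters b + e := by
    have r0 : rv b (0, 0) = (2 * b - 1) / 4 := by
      simp only [rv, Fin.val_zero]
      congr 1
    have r1 : rv b (0, 1) = 2 * b / 4 := by
      simp only [rv, Fin.val_zero, Fin.val_one]
      congr 1
      omega
    have r2 : rv b (1, 0) = (2 * b + 1) / 4 := by
      simp only [rv, Fin.val_zero, Fin.val_one]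
      congr 1
      omega
    have r3 : rv b (1, 1) = (2 * b + 2) / 4 := by
      simp only [rv, Fin.val_one]
      congr 1
      omega
    rw [ms_sum, hu, ms_prod, one_smul, r0, r1, r2, r3]
    rfl
  have hms' : ms (Sum.elim (fun _ : Fin 1 => b) u) = b ::ₘ e := by
    rw [ms_sum, ms_fin, hu, one_smul, Multiset.singleton_add]
  rw [← hms]
  apply Gd_of
  intro d
  have g := h (Sum.elim (fun _ : Fin 1 => b) u) hms' d
  have hc : cond (Sum.elim (fun p : Fin 1 × (Fin 2 × Fin 2) => rv b p.2) u) =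
      cond (Sum.elim (fun _ : Fin 1 => b) u) := by
    rw [cond_sum, cond_sum', sum_rv hb]
  rw [hc]
  refine ⟨fun hd => ?_, fun hd => exactB_Sur hb (g.2 hd)⟩
  have h1 := g.1 hd
  rw [← coe_TF] at h1 ⊢
  exact exactB hb h1

/-- from general points -/
theorem Gd_of_expDim {n : ℕ} {w : Fin n → ℕ}
    (h : ∀ d : ℕ, ∃ F : MvPolynomial (Fin n × Fin 2) ℚ, F ≠ 0 ∧ ∀ (P : Fin n → Fin 2 → ℚ),
      MvPolynomial.aeval (fun ij : Fin n × Fin 2 => P ij.1 ij.2) F ≠ 0 → ExpDim ℚ w P d) :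
    Gd (ms w) := Gd_of fun d => emp_sur_of_expDim (h d)

/-- and back to general points -/
theorem Gd.expDim {n : ℕ} {w : Fin n → ℕ} (h : Gd (ms w)) :
    ∃ F : MvPolynomial (Fin n × Fin 2) ℚ, F ≠ 0 ∧ ∀ {L : Type} [Field L] [CharZero L]
      (P : Fin n → Fin 2 → L), MvPolynomial.aeval (fun ij : Fin n × Fin 2 => P ij.1 ij.2) F ≠ 0 →
      ∀ d, ExpDim L w P d :=
  expDim_of_sign (fun d hd => (h w rfl d).1 hd) (fun d hd => (h w rfl d).2 hd)

end Pool.Agent.TH545.SD
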